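import Pool.Agent.Y561.RC.Real

set_option autoImplicit false

open Polynomial

namespace Pool.Agent.Y561.RC

open Pool.Agent.Results.MP_5a426c_al.RealClosure (setOrbit strongTwoClosure strong_pair
  strong_point strong_symm)

variable (F : Subfield ℝ) (n : ℕ) [NeZero n]

/-- All numbers `ω + ω⁻¹`, `ω ^ n = 1`, lie in `F` if `2 cos (2 π / n)` does. -/
lemma exists_cos (hc : 2 * Real.cos (2 * Real.pi / n) ∈ F) (ω : ℂ) (hω : ω ^ n = 1) :
    ∃ c : F, (((c : ℝ) : ℂ)) = ω + ω⁻¹ := by
  have hn : n ≠ 0 := NeZero.ne n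
  have hζ := Complex.isPrimitiveRoot_exp n hn
  set ζ := Complex.exp (2 * Real.pi * Complex.I / n) with hζdef
  have hζ0 : ζ ≠ 0 := Complex.exp_ne_zero _
  have h1 : ζ + ζ⁻¹ = ((2 * Real.cos (2 * Real.pi / n) : ℝ) : ℂ) := by
    have e1 : ζ = Complex.exp (((2 * Real.pi / n : ℝ) : ℂ) * Complex.I) := by
      rw [hζdef]; congr 1; push_cast; ring
    have e2 : ζ⁻¹ = Complex.exp (-((2 * Real.pi / n : ℝ) : ℂ) * Complex.I) := by
      rw [e1, ← Complex.exp_neg]; congr 1; ring
    rw [e2, e1]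
    rw [Complex.ofReal_mul, Complex.ofReal_cos, Complex.cos]
    push_cast
    ring
  have key : ∀ j : ℕ, (∃ c : F, (((c : ℝ) : ℂ)) = ζ ^ j + (ζ ^ j)⁻¹) ∧
      (∃ c : F, (((c : ℝ) : ℂ)) = ζ ^ (j + 1) + (ζ ^ (j + 1))⁻¹) := by
    intro j
    induction j with
    | zero =>
      refine ⟨⟨2, ?_⟩, ⟨⟨_, hc⟩, ?_⟩⟩
      · have h2 : (((2 : F) : ℝ)) = 2 := rfl
        rw [h2]
        norm_num
      · rw [zero_add, pow_one]
        exact h1.symm
    | succ j ih =>
      obtain ⟨⟨c0, h0⟩, ⟨c1, h1'⟩⟩ := ih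
      refine ⟨⟨c1, h1'⟩, ⟨⟨_, hc⟩ * c1 - c0, ?_⟩⟩
      push_cast
      rw [h0, h1']
      have h2 : ((2 : ℂ) * Complex.cos (2 * Real.pi / n)) = ζ + ζ⁻¹ := by
        rw [h1]; push_cast; ring
      rw [h2]
      field_simp
      ring
  obtain ⟨j, _, hj⟩ := hζ.eq_pow_of_pow_eq_one hω
  obtain ⟨⟨c, hc'⟩, _⟩ := key j
  exact ⟨c, by rw [hc', hj]⟩

/-- the adjacency operator of the cycle -/
noncomputable def adj (x y : ZMod n) : F := (if y = x + 1 then 1 else 0) + (if y = x - 1 then 1 else 0)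

omit [NeZero n] in
lemma adj_symm (x y : ZMod n) : adj F n x y = adj F n y x := by
  have h1 : (y = x + 1) ↔ (x = y - 1) := by
    constructor
    · rintro rfl; ring
    · rintro rfl; ring
  have h2 : (y = x - 1) ↔ (x = y + 1) := by
    constructor
    · rintro rfl; ring
    · rintro rfl; ring
  simp only [adj, h1, h2]
  rw [add_comm]

/-- the shift operator -/
noncomputable def T : (ZMod n → F) →ₗ[F] (ZMod n → F) := P F (Equiv.addRight (1 : ZMod n))

omit [NeZero n] in
lemma T_apply (f : ZMod n → F) (x : ZMod n) : T F n f x = f (x - 1) := by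
  rw [T, P_apply]
  congr 1
  simp [sub_eq_add_neg]

omit [NeZero n] in
lemma T_pow_apply (k : ℕ) (f : ZMod n → F) (x : ZMod n) : (T F n ^ k) f x = f (x - k) := by
  induction k generalizing f x with
  | zero => simp
  | succ k ih =>
    rw [pow_succ, Module.End.mul_apply, ih, T_apply]
    congr 1
    push_cast
    ring

omit [NeZero n] in
lemma T_pow_n : T F n ^ n = 1 := by
  apply LinearMap.ext
  intro f
  funext x
  rw [T_pow_apply]
  simp

lemma opr_adj_apply (f : ZMod n → F) (x : ZMod n) :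
    opr F (adj F n) f x = f (x + 1) + f (x - 1) := by
  rw [opr_apply]
  simp [adj, add_mul, Finset.sum_add_distrib]

lemma T_mul_opr (c : F) : T F n * (opr F (adj F n) - algebraMap F _ c) =
    aeval (T F n) (X ^ 2 - C c * X + 1 : F[X]) := by
  apply LinearMap.ext
  intro f
  funext x
  rw [Module.End.mul_apply, T_apply]
  simp only [LinearMap.sub_apply, Pi.sub_apply, opr_adj_apply, Module.algebraMap_end_apply,
    Pi.smul_apply, smul_eq_mul, map_add, map_sub, map_mul, map_pow, aeval_X, aeval_C, map_one,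
    LinearMap.add_apply, Module.End.mul_apply, Pi.add_apply, T_pow_apply, T_apply,
    Module.End.one_apply]
  have e1 : x - 1 + 1 = x := by ring
  have e2 : x - 1 - 1 = x - ((2 : ℕ) : ZMod n) := by push_cast; ring
  rw [e1, e2]
  ring

lemma T_comm_opr : Commute (T F n) (opr F (adj F n)) := by
  apply LinearMap.ext
  intro f
  funext x
  simp only [Module.End.mul_apply, T_apply, opr_adj_apply]
  have e1 : x - 1 + 1 = x + 1 - 1 := by ring
  rw [e1]

lemma prod_formula {ι : Type*} (s : Finset ι) (c : ι → F) :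
    T F n ^ s.card * aeval (opr F (adj F n)) (∏ i ∈ s, (X - C (c i) : F[X])) =
      aeval (T F n) (∏ i ∈ s, (X ^ 2 - C (c i) * X + 1 : F[X])) := by
  classical
  induction s using Finset.induction_on with
  | empty => simp
  | insert a s ha ih =>
    rw [Finset.card_insert_of_notMem ha, Finset.prod_insert ha, Finset.prod_insert ha,
      map_mul, map_mul, ← ih, ← T_mul_opr, pow_succ']
    have h1 : aeval (opr F (adj F n)) (X - C (c a) : F[X]) =
        opr F (adj F n) - algebraMap F _ (c a) := by simp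
    rw [h1]
    have h2 : Commute (T F n ^ s.card) (opr F (adj F n) - algebraMap F _ (c a)) := by
      apply Commute.sub_right
      · exact (T_comm_opr F n).pow_left _
      · exact (Algebra.commutes _ _).symm
    rw [mul_assoc, mul_assoc, ← mul_assoc (T F n ^ s.card) _ _, h2.eq, mul_assoc]

lemma annihilate (hc : 2 * Real.cos (2 * Real.pi / n) ∈ F) :
    ∃ m : Multiset F, aeval (opr F (adj F n)) ((m.map (fun a => (X - C a : F[X]))).prod) = 0 := by
  classical
  have hn : 0 < n := Nat.pos_of_ne_zero (NeZero.ne n)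
  let S : Finset ℂ := nthRootsFinset n (1 : ℂ)
  have hS : ∀ ω ∈ S, ω ^ n = 1 := fun ω h => (mem_nthRootsFinset hn 1).1 h
  choose! c hcc using fun ω => exists_cos F n hc ω
  refine ⟨S.val.map c, ?_⟩
  have hprod : (((S.val.map c).map (fun a => (X - C a : F[X]))).prod) =
      ∏ ω ∈ S, (X - C (c ω) : F[X]) := by
    rw [Multiset.map_map]
    rfl
  rw [hprod]
  have h1 := prod_formula F n S c
  let ι : F →+* ℂ := (Complex.ofRealHom).comp F.subtype
  have hι : Function.Injective ι := ι.injective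
  have h2 : (∏ ω ∈ S, (X ^ 2 - C (c ω) * X + 1 : F[X])) = (X ^ n - 1) ^ 2 := by
    apply Polynomial.map_injective ι hι
    rw [Polynomial.map_prod]
    have e1 : ∀ ω ∈ S, (X ^ 2 - C (c ω) * X + 1 : F[X]).map ι =
        (X - C ω) * (X - C ω⁻¹) := by
      intro ω hω
      have h0 : ω ≠ 0 := by
        rintro rfl
        have := hS 0 hω
        rw [zero_pow hn.ne'] at this
        exact zero_ne_one this
      have h3 : ι (c ω) = ω + ω⁻¹ := hcc ω (hS ω hω)
      simp only [Polynomial.map_add, Polynomial.map_sub, Polynomial.map_mul, Polynomial.map_pow,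
        Polynomial.map_X, Polynomial.map_C, Polynomial.map_one, h3]
      have h4 : (C ω * C ω⁻¹ : ℂ[X]) = 1 := by
        rw [← C_mul, mul_inv_cancel₀ h0, C_1]
      rw [C_add]
      linear_combination -h4
    rw [Finset.prod_congr rfl e1, Finset.prod_mul_distrib]
    have hζ := Complex.isPrimitiveRoot_exp n hn.ne'
    have e2 : (X ^ n - 1 : ℂ[X]) = ∏ ω ∈ S, (X - C ω) := X_pow_sub_one_eq_prod hn hζ
    have e3 : ∏ ω ∈ S, (X - C ω⁻¹ : ℂ[X]) = ∏ ω ∈ S, (X - C ω) := by
      apply Finset.prod_bij (fun ω _ => ω⁻¹)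
      · intro ω hω
        rw [mem_nthRootsFinset hn, inv_pow, hS ω hω, inv_one]
      · intro a _ b _ h
        exact inv_injective h
      · intro b hb
        refine ⟨b⁻¹, ?_, inv_inv b⟩
        rw [mem_nthRootsFinset hn, inv_pow, hS b hb, inv_one]
      · intro a _
        rfl
    rw [e3, ← e2]
    simp only [Polynomial.map_sub, Polynomial.map_pow, Polynomial.map_X, Polynomial.map_one]
    ring
  rw [h2] at h1
  have h3 : aeval (T F n) ((X ^ n - 1) ^ 2 : F[X]) = 0 := by
    simp [T_pow_n]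
  rw [h3] at h1
  have h4 : T F n ^ (n * S.card) = 1 := by rw [pow_mul, T_pow_n, one_pow]
  have h5 : S.card ≤ n * S.card := Nat.le_mul_of_pos_left _ hn
  have h6 : T F n ^ (n * S.card - S.card) * T F n ^ S.card = 1 := by
    rw [← pow_add, Nat.sub_add_cancel h5, h4]
  calc aeval (opr F (adj F n)) (∏ ω ∈ S, (X - C (c ω) : F[X]))
      = (T F n ^ (n * S.card - S.card) * T F n ^ S.card) *
        aeval (opr F (adj F n)) (∏ ω ∈ S, (X - C (c ω) : F[X])) := by rw [h6, one_mul]
    _ = 0 := by rw [mul_assoc, h1, mul_zero]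

end Pool.Agent.Y561.RC
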