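import Mathlib.Algebra.Field.Subfield.Basic
import Mathlib.Analysis.SpecialFunctions.Trigonometric.Basic
import Mathlib.Algebra.Order.Field.Subfield
import Mathlib.Data.ZMod.Basic
import Mathlib.GroupTheory.Perm.Basic
import Mathlib.LinearAlgebra.Finsupp.Defs
import Mathlib.LinearAlgebra.Finsupp.Span
import Mathlib.Algebra.Module.Submodule.Map

set_option autoImplicit false

universe u v

namespace Pool.Agent.Y561.RC

/-- The linear extension of a permutation to the permutation module `FΩ`. -/
noncomputable def ext (F : Type v) [Field F] {Ω : Type u} (σ : Equiv.Perm Ω) :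
    (Ω →₀ F) →ₗ[F] (Ω →₀ F) :=
  Finsupp.lmapDomain F F σ

/-- `W` is an `FG`-submodule of the permutation module. -/
def IsInvariant (F : Type v) [Field F] {Ω : Type u} (G : Subgroup (Equiv.Perm Ω))
    (W : Submodule F (Ω →₀ F)) : Prop :=
  ∀ g ∈ G, ∀ v ∈ W, ext F g v ∈ W

/-- The `F`-closure of `G`: the permutations whose linear extension maps every
`FG`-submodule of the permutation module onto itself. -/
def fieldClosure (F : Type v) [Field F] {Ω : Type u} (G : Subgroup (Equiv.Perm Ω)) :
    Set (Equiv.Perm Ω) :=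
  {σ | ∀ W : Submodule F (Ω →₀ F), IsInvariant F G W → W.map (ext F σ) = W}

/-- The regular cyclic group of order `n`: all translations `x ↦ x + a` of `ℤ/n`. -/
def cyc (n : ℕ) : Subgroup (Equiv.Perm (ZMod n)) where
  carrier := {σ | ∃ a, ∀ x, σ x = x + a}
  one_mem' := ⟨0, fun x => by simp⟩
  mul_mem' := by
    rintro σ τ ⟨a, ha⟩ ⟨b, hb⟩
    exact ⟨b + a, fun x => by rw [Equiv.Perm.mul_apply, hb, ha, add_assoc]⟩
  inv_mem' := by
    rintro σ ⟨a, ha⟩
    exact ⟨-a, fun x => by
      rw [Equiv.Perm.inv_eq_iff_eq, ha]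
      ring⟩

end Pool.Agent.Y561.RC
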