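import Pool.Agent.Y561.RC.Cyc

set_option autoImplicit false

open Polynomial

namespace Pool.Agent.Y561.RC

open Pool.Agent.Results.MP_5a426c_al.RealClosure (setOrbit strongTwoClosure strong_pair
  strong_point strong_symm)

variable (n : ℕ)

/-- A rotation or a reflection of `ℤ/n`. -/
def IsDih (σ : Equiv.Perm (ZMod n)) : Prop :=
  (∃ a, ∀ x, σ x = a + x) ∨ (∃ a, ∀ x, σ x = a - x)

lemma IsDih.symm {n : ℕ} {σ : Equiv.Perm (ZMod n)} (h : IsDih n σ) : IsDih n σ.symm := by
  rcases h with ⟨a, h⟩ | ⟨a, h⟩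
  · left
    refine ⟨-a, fun x => ?_⟩
    rw [Equiv.symm_apply_eq, h]
    ring
  · right
    refine ⟨a, fun x => ?_⟩
    rw [Equiv.symm_apply_eq, h]
    ring

lemma dih_orbit [NeZero n] {σ : Equiv.Perm (ZMod n)} (h : IsDih n σ) (s t : Finset (ZMod n))
    (hs : s.card = 2) (ht : t ∈ setOrbit (cyc n) s) :
    t.map σ.toEmbedding ∈ setOrbit (cyc n) s := by
  classical
  obtain ⟨g, ⟨b, hb⟩, rfl⟩ := ht
  obtain ⟨x, y, hxy, rfl⟩ := Finset.card_eq_two.1 hs
  rcases h with ⟨a, h⟩ | ⟨a, h⟩
  · refine ⟨Equiv.addRight (b + a), ⟨b + a, fun x => rfl⟩, ?_⟩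
    have e1 : σ (g x) = x + (b + a) := by rw [h, hb]; ring
    have e2 : σ (g y) = y + (b + a) := by rw [h, hb]; ring
    simp only [Finset.map_insert, Finset.map_singleton, Equiv.coe_toEmbedding, e1, e2,
      Equiv.coe_addRight]
  · refine ⟨Equiv.addRight (a - b - x - y), ⟨a - b - x - y, fun x => rfl⟩, ?_⟩
    have e1 : σ (g x) = y + (a - b - x - y) := by rw [h, hb]; ring
    have e2 : σ (g y) = x + (a - b - x - y) := by rw [h, hb]; ring
    simp only [Finset.map_insert, Finset.map_singleton, Equiv.coe_toEmbedding, e1, e2,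
      Equiv.coe_addRight]
    rw [Finset.pair_comm]

lemma dih_strong [NeZero n] {σ : Equiv.Perm (ZMod n)} (h : IsDih n σ) :
    σ ∈ strongTwoClosure (cyc n) := by
  intro s hs
  apply Set.Subset.antisymm
  · rintro _ ⟨t, ht, rfl⟩
    exact dih_orbit n h s t hs ht
  · intro t ht
    refine ⟨t.map σ.symm.toEmbedding, dih_orbit n h.symm s t hs ht, ?_⟩
    simp only [Finset.map_map]
    have e : σ.symm.toEmbedding.trans σ.toEmbedding = Function.Embedding.refl _ := by
      ext x; simp
    rw [e, Finset.map_refl]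

lemma adj_inv (F : Subfield ℝ) [NeZero n] : ∀ g ∈ cyc n, ∀ x y,
    adj F n (g x) (g y) = adj F n x y := by
  rintro g ⟨a, ha⟩ x y
  have h1 : (g y = g x + 1) ↔ (y = x + 1) := by
    rw [ha, ha]
    constructor
    · intro h
      have : y = (x + a + 1) - a := by rw [← h]; ring
      rw [this]; ring
    · rintro rfl; ring
  have h2 : (g y = g x - 1) ↔ (y = x - 1) := by
    rw [ha, ha]
    constructor
    · intro h
      have : y = (x + a - 1) - a := by rw [← h]; ring
      rw [this]; ring
    · rintro rfl; ring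
  simp only [adj, h1, h2]

/-- If `2 cos (2 π / n)` lies in `F` then the `F`-closure of the cyclic group is dihedral. -/
theorem closure_dih (F : Subfield ℝ) (hn : 3 ≤ n)
    (hc : 2 * Real.cos (2 * Real.pi / n) ∈ F) {σ : Equiv.Perm (ZMod n)}
    (hσ : σ ∈ fieldClosure F (cyc n)) : IsDih n σ := by
  haveI : NeZero n := ⟨by omega⟩
  obtain ⟨m, hm⟩ := annihilate F n hc
  have hspan := span_eigen (opr F (adj F n)) (opr_symm _ (adj_symm F n)) m hm
  have hcomm := commute_of_span hσ _ (opr_comm _ (adj_inv n F)) hspan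
  have hent := entry_of_comm _ σ hcomm
  have hpos : ∀ x y, (y = x + 1 ∨ y = x - 1) ↔ adj F n x y ≠ 0 := by
    intro x y
    constructor
    · intro h h0
      have h1 : (0 : F) ≤ (if y = x + 1 then 1 else 0) := by split_ifs <;> norm_num
      have h2 : (0 : F) ≤ (if y = x - 1 then 1 else 0) := by split_ifs <;> norm_num
      have h3 := (add_eq_zero_iff_of_nonneg h1 h2).1 h0
      rcases h with h | h
      · rw [if_pos h] at h3
        exact one_ne_zero h3.1
      · rw [if_pos h] at h3
        exact one_ne_zero h3.2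
    · intro h
      by_contra hcon
      push Not at hcon
      apply h
      rw [adj, if_neg hcon.1, if_neg hcon.2, add_zero]
  have step : ∀ x, σ (x + 1) = σ x + 1 ∨ σ (x + 1) = σ x - 1 := by
    intro x
    rw [hpos, hent, ← hpos]
    exact Or.inl rfl
  have h20 : (2 : ZMod n) ≠ 0 := by
    intro h
    have h1 : ((2 : ℕ) : ZMod n) = 0 := by exact_mod_cast h
    rw [ZMod.natCast_eq_zero_iff] at h1
    exact absurd (Nat.le_of_dvd (by norm_num) h1) (by omega)
  have ne2 : ∀ x, σ (x + 1 + 1) ≠ σ x := by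
    intro x h
    have := σ.injective h
    apply h20
    have e : (2 : ZMod n) = (x + 1 + 1) - x := by ring
    rw [e, this, sub_self]
  rcases step 0 with h0 | h0
  · left
    refine ⟨σ 0, ?_⟩
    have key : ∀ k : ℕ, σ (k : ZMod n) = σ 0 + k ∧ σ ((k : ZMod n) + 1) = σ 0 + k + 1 := by
      intro k
      induction k with
      | zero =>
        refine ⟨by simp, ?_⟩
        rw [Nat.cast_zero, add_zero]
        exact h0
      | succ k ih =>
        refine ⟨by push_cast; rw [ih.2]; ring, ?_⟩
        push_cast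
        rcases step ((k : ZMod n) + 1) with h | h
        · rw [h, ih.2]; ring
        · exfalso
          apply ne2 (k : ZMod n)
          rw [h, ih.2, ih.1]; ring
    intro x
    have := (key x.val).1
    rwa [ZMod.natCast_zmod_val] at this
  · right
    refine ⟨σ 0, ?_⟩
    have key : ∀ k : ℕ, σ (k : ZMod n) = σ 0 - k ∧ σ ((k : ZMod n) + 1) = σ 0 - k - 1 := by
      intro k
      induction k with
      | zero =>
        refine ⟨by simp, ?_⟩
        rw [Nat.cast_zero, sub_zero]
        exact h0
      | succ k ih =>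
        refine ⟨by push_cast; rw [ih.2]; ring, ?_⟩
        push_cast
        rcases step ((k : ZMod n) + 1) with h | h
        · exfalso
          apply ne2 (k : ZMod n)
          rw [h, ih.2, ih.1]; ring
        · rw [h, ih.2]; ring
    intro x
    have := (key x.val).1
    rwa [ZMod.natCast_zmod_val] at this

/-- Multiplication by `u ≠ ± 1` is not in the strong 2-closure of the cyclic group. -/
theorem not_strong [NeZero n] {σ : Equiv.Perm (ZMod n)} (u : ZMod n) (h1 : u ≠ 1)
    (h2 : u ≠ -1) (hn : 3 ≤ n) (h : ∀ x, σ x = u * x) : σ ∉ strongTwoClosure (cyc n) := by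
  intro hσ
  haveI : Fact (1 < n) := ⟨by omega⟩
  obtain ⟨g, ⟨b, hb⟩, h3 | h3⟩ := strong_pair hσ (x := 0) (y := 1) zero_ne_one
  · rw [h, h, hb, hb, mul_zero, zero_add, mul_one] at h3
    rw [← h3.1, add_zero] at h3
    exact h1 h3.2
  · rw [h, h, hb, hb, mul_zero, zero_add, mul_one] at h3
    apply h2
    rw [h3.2]
    exact eq_neg_of_add_eq_zero_right h3.1.symm

end Pool.Agent.Y561.RC
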