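import Mathlib
import Pool.Agent.Results.MP_5a426c_al.RealClosure
import Pool.Agent.Y561.RC.Defs

set_option autoImplicit false

universe u v

namespace Pool.Agent.Y561.RC

open Pool.Agent.Results.MP_5a426c_al.RealClosure (setOrbit strongTwoClosure strong_pair
  strong_point strong_symm)

section

variable {F : Type v} [Field F] [LinearOrder F] [IsStrictOrderedRing F]
  {Ω : Type u} [Fintype Ω] [DecidableEq Ω]

variable (F Ω) in
/-- The standard symmetric form. -/
noncomputable def B : LinearMap.BilinForm F (Ω → F) :=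
  LinearMap.mk₂ F (fun f g => ∑ x, f x * g x)
    (fun f f' g => by simp [add_mul, Finset.sum_add_distrib])
    (fun c f g => by simp [mul_assoc, Finset.mul_sum])
    (fun f g g' => by simp [mul_add, Finset.sum_add_distrib])
    (fun c f g => by
      simp only [Pi.smul_apply, smul_eq_mul, Finset.mul_sum]
      exact Finset.sum_congr rfl (fun x _ => by ring))

omit [LinearOrder F] [IsStrictOrderedRing F] [DecidableEq Ω] in
lemma B_apply (f g : Ω → F) : B F Ω f g = ∑ x, f x * g x := rfl

omit [LinearOrder F] [IsStrictOrderedRing F] [DecidableEq Ω] in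
lemma B_comm (f g : Ω → F) : B F Ω f g = B F Ω g f := by
  rw [B_apply, B_apply]
  exact Finset.sum_congr rfl (fun x _ => mul_comm _ _)

omit [LinearOrder F] [IsStrictOrderedRing F] [DecidableEq Ω] in
lemma B_refl : (B F Ω).IsRefl := fun f g h => by rw [B_comm]; exact h

omit [DecidableEq Ω] in
lemma B_self {f : Ω → F} (h : B F Ω f f = 0) : f = 0 := by
  rw [B_apply] at h
  funext x
  exact (Finset.sum_mul_self_eq_zero_iff _ _).1 h x (Finset.mem_univ x)

omit [DecidableEq Ω] in
lemma isCompl_orth (W : Submodule F (Ω → F)) : IsCompl W ((B F Ω).orthogonal W) := by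
  rw [LinearMap.BilinForm.isCompl_orthogonal_iff_disjoint B_refl]
  rw [Submodule.disjoint_def]
  intro f hf hf'
  exact B_self (hf' f hf)

/-- The permutation operator on functions. -/
def P (F : Type v) [Field F] {Ω : Type u} (σ : Equiv.Perm Ω) : (Ω → F) →ₗ[F] (Ω → F) :=
  LinearMap.funLeft F F σ.symm

omit [LinearOrder F] [IsStrictOrderedRing F] [Fintype Ω] [DecidableEq Ω] in
lemma P_apply (σ : Equiv.Perm Ω) (f : Ω → F) (x : Ω) : P F σ f x = f (σ.symm x) := rfl

omit [LinearOrder F] [IsStrictOrderedRing F] [Fintype Ω] [DecidableEq Ω] in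
lemma P_mul (σ τ : Equiv.Perm Ω) (f : Ω → F) : P F (σ * τ) f = P F σ (P F τ f) := rfl

omit [LinearOrder F] [IsStrictOrderedRing F] [Fintype Ω] [DecidableEq Ω] in
lemma P_one (f : Ω → F) : P F (1 : Equiv.Perm Ω) f = f := rfl

omit [LinearOrder F] [IsStrictOrderedRing F] [Fintype Ω] in
lemma P_single (σ : Equiv.Perm Ω) (x : Ω) :
    P F σ (Pi.single x (1 : F)) = Pi.single (σ x) (1 : F) := by
  funext y
  rw [P_apply, Pi.single_apply, Pi.single_apply]
  by_cases h : y = σ x
  · subst h; simp
  · have : σ.symm y ≠ x := by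
      intro h'; apply h; rw [← h']; simp
    simp [h, this]

omit [LinearOrder F] [IsStrictOrderedRing F] [DecidableEq Ω] in
lemma B_P (σ : Equiv.Perm Ω) (f g : Ω → F) : B F Ω (P F σ f) (P F σ g) = B F Ω f g := by
  rw [B_apply, B_apply]
  exact Equiv.sum_comp σ.symm (fun x => f x * g x)

omit [LinearOrder F] [IsStrictOrderedRing F] in
lemma B_single (f : Ω → F) (y : Ω) : B F Ω f (Pi.single y (1 : F)) = f y := by
  rw [B_apply]
  simp [Pi.single_apply]

variable (F Ω) in
/-- Functions and formal sums. -/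
noncomputable def Phi : (Ω →₀ F) ≃ₗ[F] (Ω → F) := Finsupp.linearEquivFunOnFinite F F Ω

omit [LinearOrder F] [IsStrictOrderedRing F] [DecidableEq Ω] in
lemma Phi_ext (σ : Equiv.Perm Ω) (v : Ω →₀ F) :
    Phi F Ω (ext F σ v) = P F σ (Phi F Ω v) := by
  funext x
  exact Finsupp.mapDomain_equiv_apply v x

/-- Over an ordered field the strong 2-closure is contained in the `F`-closure, apart from the
trivial group on two points. -/
lemma strong_le {G : Subgroup (Equiv.Perm Ω)} (hG : ¬ (Nat.card Ω = 2 ∧ G = ⊥))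
    {σ : Equiv.Perm Ω} (hσ : σ ∈ strongTwoClosure G) (W : Submodule F (Ω →₀ F))
    (hW : IsInvariant F G W) : W.map (ext F σ) ≤ W := by
  classical
  set K : Submodule F (Ω → F) := W.map (Phi F Ω).toLinearMap with hK
  have memK : ∀ v : Ω →₀ F, Phi F Ω v ∈ K ↔ v ∈ W := by
    intro v
    constructor
    · rintro ⟨w, hw, he⟩
      have : w = v := (Phi F Ω).injective he
      exact this ▸ hw
    · intro hv
      exact ⟨v, hv, rfl⟩
  have invK : ∀ g ∈ G, ∀ f ∈ K, P F g f ∈ K := by
    rintro g hg f ⟨w, hw, rfl⟩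
    have := (memK _).2 (hW g hg w hw)
    rw [Phi_ext] at this
    exact this
  set K' := (B F Ω).orthogonal K with hK'
  have hc : IsCompl K K' := isCompl_orth K
  have orth : ∀ f ∈ K, ∀ g ∈ K', B F Ω f g = 0 := fun f hf g hg => hg f hf
  -- decomposition
  have dec : ∀ f : Ω → F, ∃ a ∈ K, ∃ b ∈ K', a + b = f := by
    intro f
    have : f ∈ K ⊔ K' := by rw [hc.sup_eq_top]; exact Submodule.mem_top
    exact Submodule.mem_sup.1 this
  choose Q hQ R hR hQR using dec
  have uniq : ∀ f a, a ∈ K → f - a ∈ K' → Q f = a := by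
    intro f a ha hb
    have h1 : Q f - a ∈ K := K.sub_mem (hQ f) ha
    have h2 : Q f - a ∈ K' := by
      have h3 : Q f - a = (f - a) - R f := by
        have h4 := hQR f
        have h5 : Q f = f - R f := by rw [← h4, h4]; exact eq_sub_of_add_eq h4
        rw [h5]
        abel
      rw [h3]
      exact K'.sub_mem hb (hR f)
    have h3 := Submodule.disjoint_def.1 hc.disjoint _ h1 h2
    exact sub_eq_zero.1 h3
  have sub_mem : ∀ f, f - Q f ∈ K' := by
    intro f
    have : f - Q f = R f := by rw [sub_eq_iff_eq_add, add_comm]; exact (hQR f).symm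
    rw [this]
    exact hR f
  have Qadd : ∀ f g, Q (f + g) = Q f + Q g := by
    intro f g
    apply uniq
    · exact K.add_mem (hQ f) (hQ g)
    · have : f + g - (Q f + Q g) = (f - Q f) + (g - Q g) := by abel
      rw [this]
      exact K'.add_mem (sub_mem f) (sub_mem g)
  have Qsmul : ∀ (c : F) f, Q (c • f) = c • Q f := by
    intro c f
    apply uniq
    · exact K.smul_mem c (hQ f)
    · rw [← smul_sub]
      exact K'.smul_mem c (sub_mem f)
  let q : (Ω → F) →ₗ[F] (Ω → F) := ⟨⟨Q, Qadd⟩, Qsmul⟩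
  have q_apply : ∀ f, q f = Q f := fun f => rfl
  have comm : ∀ g ∈ G, ∀ f, Q (P F g f) = P F g (Q f) := by
    intro g hg f
    apply uniq
    · exact invK g hg _ (hQ f)
    · intro w hw
      have hw' : P F g⁻¹ w ∈ K := invK _ (G.inv_mem hg) w hw
      have e1 : P F g f - P F g (Q f) = P F g (f - Q f) := by rw [map_sub]
      have e2 : w = P F g (P F g⁻¹ w) := by
        rw [← P_mul, mul_inv_cancel, P_one]
      change B F Ω w _ = 0
      rw [e1, e2, B_P]
      exact orth _ hw' _ (sub_mem f)
  have symm : ∀ f g, B F Ω (Q f) g = B F Ω f (Q g) := by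
    intro f g
    have h1 : B F Ω (Q f) g = B F Ω (Q f) (Q g) := by
      have : g = Q g + (g - Q g) := by abel
      conv_lhs => rw [this]
      rw [map_add, orth _ (hQ f) _ (sub_mem g), add_zero]
    have h2 : B F Ω f (Q g) = B F Ω (Q f) (Q g) := by
      rw [B_comm f, B_comm (Q f)]
      have : f = Q f + (f - Q f) := by abel
      conv_lhs => rw [this]
      rw [map_add, orth _ (hQ g) _ (sub_mem f), add_zero]
    rw [h1, h2]
  set e : Ω → Ω → F := fun x y => B F Ω (Q (Pi.single x (1 : F))) (Pi.single y (1 : F)) with he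
  have eG : ∀ g ∈ G, ∀ x y, e (g x) (g y) = e x y := by
    intro g hg x y
    simp only [he]
    rw [← P_single, ← P_single, comm g hg, B_P]
  have eS : ∀ x y, e x y = e y x := by
    intro x y
    simp only [he]
    rw [symm, B_comm]
  have eσ : ∀ x y, e (σ x) (σ y) = e x y := by
    intro x y
    by_cases hxy : x = y
    · subst hxy
      obtain ⟨g, hg, h⟩ := strong_point hG hσ x
      rw [h, eG g hg]
    · obtain ⟨g, hg, h | h⟩ := strong_pair hσ hxy
      · rw [h.1, h.2, eG g hg]
      · rw [h.1, h.2, eG g hg, eS]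
  have commσ1 : ∀ x, Q (P F σ (Pi.single x (1 : F))) = P F σ (Q (Pi.single x (1 : F))) := by
    intro x
    funext y
    rw [← B_single (Q _) y, ← B_single (P F σ _) y]
    have hy : (Pi.single y (1 : F) : Ω → F) = P F σ (Pi.single (σ.symm y) (1 : F)) := by
      rw [P_single, Equiv.apply_symm_apply]
    rw [hy, B_P, P_single, P_single]
    exact eσ x (σ.symm y)
  have commσ : q ∘ₗ P F σ = P F σ ∘ₗ q := by
    apply LinearMap.pi_ext'
    intro x
    apply LinearMap.ext_ring
    have h := commσ1 x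
    rw [← q_apply, ← q_apply] at h
    exact h
  rintro _ ⟨w, hw, rfl⟩
  rw [← memK, Phi_ext]
  have h1 : Q (Phi F Ω w) = Phi F Ω w := by
    apply uniq _ _ ((memK w).2 hw)
    rw [sub_self]
    exact K'.zero_mem
  have h2 : Q (P F σ (Phi F Ω w)) = P F σ (Q (Phi F Ω w)) :=
    LinearMap.congr_fun commσ (Phi F Ω w)
  rw [h1] at h2
  rw [← h2]
  exact hQ _

end

end Pool.Agent.Y561.RC
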