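import Pool.Agent.Y561.RC.Nec

set_option autoImplicit false

universe u v

namespace Pool.Agent.Y561.RC

open Pool.Agent.Results.MP_5a426c_al.RealClosure (setOrbit strongTwoClosure)

/-- The group of all translations of `ℤ`. -/
def translations : Subgroup (Equiv.Perm ℤ) where
  carrier := {σ | ∃ a, ∀ x, σ x = x + a}
  one_mem' := ⟨0, fun x => by simp⟩
  mul_mem' := by
    rintro σ τ ⟨a, ha⟩ ⟨b, hb⟩
    exact ⟨b + a, fun x => by rw [Equiv.Perm.mul_apply, hb, ha, add_assoc]⟩
  inv_mem' := by
    rintro σ ⟨a, ha⟩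
    exact ⟨-a, fun x => by
      rw [Equiv.Perm.inv_eq_iff_eq, ha]
      ring⟩

lemma neg_orbit (s t : Finset ℤ) (hs : s.card = 2) (ht : t ∈ setOrbit translations s) :
    t.map (Equiv.neg ℤ).toEmbedding ∈ setOrbit translations s := by
  classical
  obtain ⟨g, ⟨b, hb⟩, rfl⟩ := ht
  obtain ⟨x, y, hxy, rfl⟩ := Finset.card_eq_two.1 hs
  refine ⟨Equiv.addRight (- b - x - y), ⟨- b - x - y, fun x => rfl⟩, ?_⟩
  have e1 : - (g x) = y + (- b - x - y) := by rw [hb]; ring
  have e2 : - (g y) = x + (- b - x - y) := by rw [hb]; ring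
  simp only [Finset.map_insert, Finset.map_singleton, Equiv.coe_toEmbedding, Equiv.neg_apply,
    e1, e2, Equiv.coe_addRight]
  rw [Finset.pair_comm]

lemma neg_strong : Equiv.neg ℤ ∈ strongTwoClosure translations := by
  intro s hs
  apply Set.Subset.antisymm
  · rintro _ ⟨t, ht, rfl⟩
    exact neg_orbit s t hs ht
  · intro t ht
    refine ⟨t.map (Equiv.neg ℤ).toEmbedding, neg_orbit s t hs ht, ?_⟩
    simp only [Finset.map_map]
    have e : (Equiv.neg ℤ).toEmbedding.trans (Equiv.neg ℤ).toEmbedding =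
        Function.Embedding.refl _ := by
      ext x; simp
    rw [e, Finset.map_refl]

theorem neg_not_closure (F : Type v) [Field F] [LinearOrder F] [IsStrictOrderedRing F] :
    Equiv.neg ℤ ∉ fieldClosure F translations := by
  intro h
  let L : (ℤ →₀ F) →ₗ[F] F := Finsupp.linearCombination F (fun x : ℤ => (2 : F) ^ x)
  have hL : ∀ (x : ℤ) (a : F), L (Finsupp.single x a) = a * 2 ^ x := by
    intro x a
    simp [L, Finsupp.linearCombination_single]
  have h2 : (2 : F) ≠ 0 := two_ne_zero
  have hinv : IsInvariant F translations (LinearMap.ker L) := by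
    rintro g ⟨a, ha⟩ v hv
    have hcomp : L ∘ₗ ext F g = ((2 : F) ^ a) • L := by
      apply Finsupp.lhom_ext
      intro x c
      simp only [LinearMap.comp_apply, LinearMap.smul_apply, ext, Finsupp.lmapDomain_apply,
        Finsupp.mapDomain_single, hL, ha, smul_eq_mul]
      rw [zpow_add₀ h2]
      ring
    rw [LinearMap.mem_ker] at hv ⊢
    have := LinearMap.congr_fun hcomp v
    rw [LinearMap.comp_apply, LinearMap.smul_apply, hv, smul_zero] at this
    exact this
  have hW := h _ hinv
  have hv : (Finsupp.single (1 : ℤ) (1 : F) - Finsupp.single (0 : ℤ) (2 : F)) ∈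
      LinearMap.ker L := by
    rw [LinearMap.mem_ker, map_sub, hL, hL]
    norm_num
  have h3 : ext F (Equiv.neg ℤ) (Finsupp.single (1 : ℤ) (1 : F) - Finsupp.single (0 : ℤ) (2 : F))
      ∈ LinearMap.ker L := by
    rw [← hW]
    exact ⟨_, hv, rfl⟩
  rw [LinearMap.mem_ker, map_sub, map_sub] at h3
  simp only [ext, Finsupp.lmapDomain_apply, Finsupp.mapDomain_single, hL, Equiv.neg_apply] at h3
  norm_num at h3

end Pool.Agent.Y561.RC
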