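import Pool.Agent.Y561.RC.Dih

set_option autoImplicit false

open Polynomial

namespace Pool.Agent.Y561.RC

variable (F : Subfield ℝ) (n : ℕ)

lemma isIntegral_root (hn : 0 < n) (ζ : ℂ) (h : ζ ^ n = 1) : IsIntegral F ζ :=
  ⟨X ^ n - 1, by
    have := monic_X_pow_sub_C (1 : F) hn.ne'
    rwa [C_1] at this, by simp [h]⟩

/-- There is a conjugate of `ζ` over `F` other than `ζ`, `ζ⁻¹`. -/
lemma exists_conj (hn : 3 ≤ n) (hc : 2 * Real.cos (2 * Real.pi / n) ∉ F) (ζ : ℂ)
    (hζe : ζ = Complex.exp (2 * Real.pi * Complex.I / n)) :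
    ∃ ω : ℂ, ω ≠ ζ ∧ ω ≠ ζ⁻¹ ∧ aeval ω (minpoly F ζ) = 0 := by
  classical
  by_contra hcon
  push Not at hcon
  have hζ := Complex.isPrimitiveRoot_exp n (by omega : n ≠ 0)
  rw [← hζe] at hζ
  have hζ0 : ζ ≠ 0 := by rw [hζe]; exact Complex.exp_ne_zero _
  have hint := isIntegral_root F n (by omega) ζ hζ.pow_eq_one
  set m := minpoly F ζ with hm
  set m' := m.map (algebraMap F ℂ) with hm'
  have hmon : m'.Monic := (minpoly.monic hint).map _
  have hsep : m'.Separable := (minpoly.irreducible hint).separable.map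
  have hnod : m'.roots.Nodup := nodup_roots hsep
  have hsplit : m'.Splits := IsAlgClosed.splits m'
  have hne : m' ≠ 0 := hmon.ne_zero
  have hroot : ∀ ω : ℂ, ω ∈ m'.roots ↔ aeval ω m = 0 := by
    intro ω
    rw [mem_roots hne, IsRoot, hm', eval_map_algebraMap]
  have hdiff : ζ ≠ ζ⁻¹ := by
    intro h
    have h2 : ζ ^ 2 = 1 := by
      rw [pow_two]
      conv_lhs => rw [h]
      rw [← mul_inv, ← pow_two]
      rw [inv_eq_one]
      have : ζ * ζ⁻¹ = 1 := mul_inv_cancel₀ hζ0
      rw [pow_two]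
      nth_rewrite 2 [h]
      exact this
    have h3 := (hζ.pow_eq_one_iff_dvd 2).1 h2
    exact absurd (Nat.le_of_dvd (by norm_num) h3) (by omega)
  have hconj : (starRingEnd ℂ) ζ = ζ⁻¹ := by
    have e1 : ζ = Complex.exp (((2 * Real.pi / n : ℝ) : ℂ) * Complex.I) := by
      rw [hζe]; congr 1; push_cast; ring
    rw [e1, ← Complex.exp_conj, ← Complex.exp_neg]
    congr 1
    rw [map_mul, Complex.conj_ofReal, Complex.conj_I]
    ring
  have hz1 : aeval ζ m = 0 := minpoly.aeval F ζ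
  have hz2 : aeval ζ⁻¹ m = 0 := by
    rw [← hconj]
    let φ : ℂ →ₐ[F] ℂ := (Complex.conjAe.restrictScalars F : ℂ ≃ₐ[F] ℂ).toAlgHom
    have : (starRingEnd ℂ) ζ = φ ζ := rfl
    rw [this, aeval_algHom_apply, hz1, map_zero]
  have hroots : m'.roots = {ζ, ζ⁻¹} := by
    apply le_antisymm
    · rw [Multiset.le_iff_subset hnod]
      intro ω hω
      have h1 := (hroot ω).1 hω
      by_cases h : ω = ζ
      · rw [h]; simp
      · by_cases h' : ω = ζ⁻¹
        · rw [h']; simp
        · exact absurd h1 (hcon ω h h')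
    · rw [Multiset.le_iff_subset (by simp [hdiff])]
      intro ω hω
      simp only [Multiset.insert_eq_cons, Multiset.mem_cons, Multiset.mem_singleton] at hω
      rcases hω with rfl | rfl
      · exact (hroot _).2 hz1
      · exact (hroot _).2 hz2
  have hprod := hsplit.eq_prod_roots_of_monic hmon
  rw [hroots] at hprod
  have hprod' : m' = (X - C ζ) * (X - C ζ⁻¹) := by
    rw [hprod]; simp
  have hcoef : m'.coeff 1 = -(ζ + ζ⁻¹) := by
    rw [hprod']
    have : (X - C ζ) * (X - C ζ⁻¹) = X ^ 2 - C (ζ + ζ⁻¹) * X + C (ζ * ζ⁻¹) := by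
      rw [C_add, C_mul]; ring
    rw [this]
    simp [coeff_X, coeff_C]
  have h1 : ζ + ζ⁻¹ = ((2 * Real.cos (2 * Real.pi / n) : ℝ) : ℂ) := by
    have e1 : ζ = Complex.exp (((2 * Real.pi / n : ℝ) : ℂ) * Complex.I) := by
      rw [hζe]; congr 1; push_cast; ring
    have e2 : ζ⁻¹ = Complex.exp (-((2 * Real.pi / n : ℝ) : ℂ) * Complex.I) := by
      rw [e1, ← Complex.exp_neg]; congr 1; ring
    rw [e2, e1]
    rw [Complex.ofReal_mul, Complex.ofReal_cos, Complex.cos]
    push_cast
    ring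
  apply hc
  have h2 : ((-(m.coeff 1) : F) : ℝ) = 2 * Real.cos (2 * Real.pi / n) := by
    have h3 : (((-(m.coeff 1) : F) : ℝ) : ℂ) = ((2 * Real.cos (2 * Real.pi / n) : ℝ) : ℂ) := by
      rw [← h1, ← neg_neg (ζ + ζ⁻¹), ← hcoef, hm', coeff_map]
      push_cast
      rfl
    exact_mod_cast h3
  rw [← h2]
  exact (-(m.coeff 1) : F).2

variable {F} in
/-- powers of conjugate roots -/
lemma conj_pow (ζ ω : ℂ) (hζ : IsIntegral F ζ) (h : aeval ω (minpoly F ζ) = 0) (f : F[X])
    (j : ℕ) : aeval (ζ ^ j) f = 0 ↔ aeval (ω ^ j) f = 0 := by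
  have hmin : minpoly F ω = minpoly F ζ :=
    (minpoly.eq_of_irreducible_of_monic (minpoly.irreducible hζ) h (minpoly.monic hζ)).symm
  have h1 : aeval (ζ ^ j) f = aeval ζ (f.comp (X ^ j)) := by
    rw [aeval_comp]; simp
  have h2 : aeval (ω ^ j) f = aeval ω (f.comp (X ^ j)) := by
    rw [aeval_comp]; simp
  rw [h1, h2, ← minpoly.dvd_iff, ← minpoly.dvd_iff, hmin]

/-- the class of a polynomial modulo `X ^ n - 1` -/
noncomputable def cl : F[X] →ₗ[F] (ZMod n →₀ F) :=
  (Polynomial.basisMonomials F).constr F (fun k : ℕ => Finsupp.single (k : ZMod n) (1 : F))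

lemma cl_monomial (k : ℕ) (a : F) : cl F n (monomial k a) = Finsupp.single (k : ZMod n) a := by
  have h1 : monomial k a = a • (Polynomial.basisMonomials F k) := by
    rw [Polynomial.coe_basisMonomials, smul_monomial, smul_eq_mul, mul_one]
  rw [h1, map_smul, cl, Module.Basis.constr_basis, Finsupp.smul_single, smul_eq_mul, mul_one]

lemma cl_monomial_mul (k : ℕ) (a : F) (f : F[X]) :
    cl F n (monomial k a * f) = a • ext F (Equiv.addRight (k : ZMod n)) (cl F n f) := by
  have h : (cl F n) ∘ₗ (LinearMap.mulLeft F (monomial k a)) =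
      (a • ext F (Equiv.addRight (k : ZMod n))) ∘ₗ (cl F n) := by
    apply Polynomial.lhom_ext'
    intro m
    apply LinearMap.ext_ring
    simp only [LinearMap.comp_apply, LinearMap.mulLeft_apply, monomial_mul_monomial, cl_monomial,
      LinearMap.smul_apply, ext, Finsupp.lmapDomain_apply, Finsupp.mapDomain_single,
      Finsupp.smul_single, smul_eq_mul]
    congr 1
    push_cast
    rw [add_comm]
    rfl
  exact LinearMap.congr_fun h f

lemma cl_comp (u : ℕ) (σ : Equiv.Perm (ZMod n)) (hσ : ∀ x, σ x = (u : ZMod n) * x) (f : F[X]) :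
    cl F n (f.comp (X ^ u)) = ext F σ (cl F n f) := by
  have h : (cl F n) ∘ₗ (Polynomial.aeval (X ^ u : F[X])).toLinearMap =
      (ext F σ) ∘ₗ (cl F n) := by
    apply Polynomial.lhom_ext'
    intro m
    apply LinearMap.ext_ring
    simp only [LinearMap.comp_apply, AlgHom.toLinearMap_apply, cl_monomial, ext,
      Finsupp.lmapDomain_apply, Finsupp.mapDomain_single, hσ]
    rw [aeval_monomial, map_one, one_mul, ← pow_mul, ← monomial_one_right_eq_X_pow, cl_monomial]
    push_cast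
    rfl
  exact LinearMap.congr_fun h f

lemma cl_surj [NeZero n] : Function.Surjective (cl F n) := by
  intro v
  refine ⟨∑ x : ZMod n, monomial x.val (v x), ?_⟩
  rw [map_sum]
  simp only [cl_monomial, ZMod.natCast_zmod_val]
  exact (Finsupp.univ_sum_single v)

/-- Divisibility by a divisor of `X ^ n - 1` is tested at the complex roots. -/
lemma dvd_iff_roots (hn : 0 < n) (d f : F[X]) (hd : d ∣ X ^ n - 1) :
    d ∣ f ↔ ∀ ω : ℂ, aeval ω d = 0 → aeval ω f = 0 := by
  classical
  constructor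
  · rintro ⟨e, rfl⟩ ω h
    rw [map_mul, h, zero_mul]
  · intro h
    by_cases hf : f = 0
    · rw [hf]; exact dvd_zero d
    have hsep1 : (X ^ n - 1 : F[X]).Separable := by
      have := separable_X_pow_sub_C (1 : F) (n := n) (by exact_mod_cast hn.ne') one_ne_zero
      rwa [C_1] at this
    have hsep : (d.map (algebraMap F ℂ)).Separable := (hsep1.of_dvd hd).map
    have hnod := nodup_roots hsep
    have hd0 : d ≠ 0 := by
      rintro rfl
      have h1 : (X ^ n - 1 : F[X]) = 0 := zero_dvd_iff.1 hd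
      exact hsep1.ne_zero h1
    have hd0' : d.map (algebraMap F ℂ) ≠ 0 := (Polynomial.map_ne_zero_iff
      (algebraMap F ℂ).injective).2 hd0
    have hf0' : f.map (algebraMap F ℂ) ≠ 0 := (Polynomial.map_ne_zero_iff
      (algebraMap F ℂ).injective).2 hf
    rw [← Polynomial.map_dvd_map' (algebraMap F ℂ)]
    have hsplit : (d.map (algebraMap F ℂ)).Splits := IsAlgClosed.splits _
    rw [hsplit.eq_prod_roots]
    have h2 : IsUnit (C (d.map (algebraMap F ℂ)).leadingCoeff) :=
      isUnit_C.2 (isUnit_iff_ne_zero.2 (leadingCoeff_ne_zero.2 hd0'))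
    rw [h2.mul_left_dvd, Multiset.prod_X_sub_C_dvd_iff_le_roots hf0',
      Multiset.le_iff_subset hnod]
    intro ω hω
    rw [mem_roots hd0', IsRoot, eval_map_algebraMap] at hω
    rw [mem_roots hf0', IsRoot, eval_map_algebraMap]
    exact h ω hω

/-- Multiplication by `u` preserves every submodule, if `ζ ^ u` is conjugate to `ζ`. -/
lemma invariant_le (hn : 0 < n) (ζ : ℂ) (hζ : IsPrimitiveRoot ζ n) (u : ℕ)
    (hu : aeval (ζ ^ u) (minpoly F ζ) = 0) (σ : Equiv.Perm (ZMod n))
    (hσ : ∀ x, σ x = (u : ZMod n) * x) (W : Submodule F (ZMod n →₀ F))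
    (hW : IsInvariant F (cyc n) W) : W.map (ext F σ) ≤ W := by
  classical
  haveI : NeZero n := ⟨hn.ne'⟩
  have hint := isIntegral_root F n hn ζ hζ.pow_eq_one
  let I : Ideal F[X] :=
    { carrier := {f | cl F n f ∈ W}
      add_mem' := by
        intro a b ha hb
        change cl F n (a + b) ∈ W
        rw [map_add]
        exact W.add_mem ha hb
      zero_mem' := by
        change cl F n 0 ∈ W
        rw [map_zero]
        exact W.zero_mem
      smul_mem' := by
        intro p f hf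
        change cl F n (p * f) ∈ W
        induction p using Polynomial.induction_on' with
        | add p q hp hq =>
          rw [add_mul, map_add]
          exact W.add_mem hp hq
        | monomial k a =>
          rw [cl_monomial_mul]
          exact W.smul_mem _ (hW _ ⟨_, fun x => rfl⟩ _ hf) }
  have memI : ∀ f, f ∈ I ↔ cl F n f ∈ W := fun f => Iff.rfl
  have hXn : (X ^ n - 1 : F[X]) ∈ I := by
    rw [memI, map_sub, ← monomial_one_right_eq_X_pow, cl_monomial]
    have : (1 : F[X]) = monomial 0 1 := rfl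
    rw [this, cl_monomial]
    simp
  set d := Submodule.IsPrincipal.generator I with hd
  have mem_iff : ∀ f, f ∈ I ↔ d ∣ f := fun f => Submodule.IsPrincipal.mem_iff_generator_dvd I
  have hdX : d ∣ X ^ n - 1 := (mem_iff _).1 hXn
  rintro _ ⟨v, hv, rfl⟩
  obtain ⟨f, rfl⟩ := cl_surj F n v
  rw [← cl_comp F n u σ hσ, ← memI, mem_iff, dvd_iff_roots F n hn d _ hdX]
  have hf : d ∣ f := (mem_iff f).1 hv
  rw [dvd_iff_roots F n hn d _ hdX] at hf
  intro ω hω
  have hωn : ω ^ n = 1 := by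
    have := (dvd_iff_roots F n hn d (X ^ n - 1) hdX).1 hdX ω hω
    simpa [sub_eq_zero] using this
  obtain ⟨k, _, rfl⟩ := hζ.eq_pow_of_pow_eq_one hωn
  have h1 := (conj_pow ζ (ζ ^ u) hint hu f k).1 (hf _ hω)
  rw [aeval_comp]
  simp only [map_pow, aeval_X]
  rw [← pow_mul, mul_comm k u, pow_mul]
  exact h1

theorem nec (hn : 3 ≤ n) (hc : 2 * Real.cos (2 * Real.pi / n) ∉ F) :
    ∃ u : ℕ, u.Coprime n ∧ (u : ZMod n) ≠ 1 ∧ (u : ZMod n) ≠ -1 ∧
      ∀ σ : Equiv.Perm (ZMod n), (∀ x, σ x = (u : ZMod n) * x) →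
        σ ∈ fieldClosure F (cyc n) := by
  classical
  have hn0 : 0 < n := by omega
  have hNZ : NeZero n := ⟨hn0.ne'⟩
  have hζ := Complex.isPrimitiveRoot_exp n hn0.ne'
  obtain ⟨ω, hω1, hω2, hω⟩ := exists_conj F n hn hc _ rfl
  set ζ := Complex.exp (2 * Real.pi * Complex.I / n) with hζe
  have hint := isIntegral_root F n hn0 ζ hζ.pow_eq_one
  have hcp := fun (f : F[X]) => conj_pow ζ ω hint hω f 1
  simp only [pow_one] at hcp
  have hprim : IsPrimitiveRoot ω n := by
    refine ⟨?_, ?_⟩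
    · have h1 := (hcp (X ^ n - 1)).1 (by simp [hζ.pow_eq_one])
      simpa [sub_eq_zero] using h1
    · intro l hl
      have h1 := (hcp (X ^ l - 1)).2 (by simp [hl])
      apply hζ.dvd_of_pow_eq_one
      simpa [sub_eq_zero] using h1
  obtain ⟨u, hun, hu⟩ := hζ.eq_pow_of_pow_eq_one hprim.pow_eq_one
  have hζ0 : ζ ≠ 0 := Complex.exp_ne_zero _
  refine ⟨u, ?_, ?_, ?_, ?_⟩
  · rw [← hu] at hprim
    exact (hζ.pow_iff_coprime hn0 u).1 hprim
  · intro h
    apply hω1
    rw [← hu]
    have h1 : ((u : ℕ) : ZMod n) = ((1 : ℕ) : ZMod n) := by rw [h]; simp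
    rw [ZMod.natCast_eq_natCast_iff'] at h1
    rw [Nat.mod_eq_of_lt hun, Nat.mod_eq_of_lt (by omega)] at h1
    rw [h1, pow_one]
  · intro h
    apply hω2
    rw [← hu]
    have h1 : ((u + 1 : ℕ) : ZMod n) = 0 := by push_cast; rw [h]; ring
    rw [ZMod.natCast_eq_zero_iff] at h1
    have h2 : ζ ^ (u + 1) = 1 := (hζ.pow_eq_one_iff_dvd _).2 h1
    rw [pow_succ] at h2
    exact eq_inv_of_mul_eq_one_left h2
  · intro σ hσ W hW
    have hle := invariant_le F n hn0 ζ hζ u (by rw [hu]; exact hω) σ hσ W hW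
    apply Submodule.eq_of_le_of_finrank_eq hle
    apply LinearEquiv.finrank_eq
    refine (Submodule.equivMapOfInjective (ext F σ) ?_ W).symm
    exact Finsupp.mapDomain_injective σ.injective

end Pool.Agent.Y561.RC
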