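import Pool.Agent.Y561.RC.Spec

set_option autoImplicit false

universe u v

open Polynomial

namespace Pool.Agent.Y561.RC

open Pool.Agent.Results.MP_5a426c_al.RealClosure (setOrbit strongTwoClosure strong_pair
  strong_point strong_symm)

/-- Every rational polynomial all of whose complex roots are real splits over `F`
(`F` contains all totally real algebraic numbers). -/
def RealRootsSplit (F : Type v) [Field F] [Algebra ℚ F] : Prop :=
  ∀ p : ℚ[X], (p.map (algebraMap ℚ ℝ)).Splits → (p.map (algebraMap ℚ F)).Splits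

section

variable {F : Type v} [Field F] [LinearOrder F] [IsStrictOrderedRing F]
  {Ω : Type u} [Fintype Ω] [DecidableEq Ω]

/-- A symmetric rational matrix has enough eigenvectors over `F`. -/
lemma span_of_realRootsSplit (hF : RealRootsSplit F) (a : Ω → Ω → ℚ)
    (ha : ∀ x y, a x y = a y x) :
    (⨆ μ : F, Module.End.eigenspace (opr F (fun x y => (a x y : F))) μ) = ⊤ := by
  classical
  set M : Matrix Ω Ω ℚ := Matrix.of a with hM
  have hsp : (M.charpoly.map (algebraMap ℚ ℝ)).Splits := by
    rw [← Matrix.charpoly_map]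
    apply Matrix.IsHermitian.splits_charpoly (𝕜 := ℝ)
    ext x y
    simp [hM, ha x y]
  have hspF := hF _ hsp
  have hmon : (M.charpoly.map (algebraMap ℚ F)).Monic := (Matrix.charpoly_monic M).map _
  have hprod := hspF.eq_prod_roots_of_monic hmon
  have hop : opr F (fun x y => (a x y : F)) = Matrix.toLin' (M.map (algebraMap ℚ F)) := by
    rw [opr]
    congr 1
  apply span_eigen _ _ (M.charpoly.map (algebraMap ℚ F)).roots
  · rw [← hprod, hop, ← Matrix.charpoly_map, ← Matrix.charpoly_toLin']
    exact LinearMap.aeval_self_charpoly _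
  · exact opr_symm _ (fun x y => by rw [ha x y])

open Classical in
/-- the adjacency matrix of the orbit of a pair -/
noncomputable def orb (G : Subgroup (Equiv.Perm Ω)) (s : Finset Ω) (x y : Ω) : ℚ :=
  if x ≠ y ∧ ({x, y} : Finset Ω) ∈ setOrbit G s then 1 else 0

lemma orb_symm (G : Subgroup (Equiv.Perm Ω)) (s : Finset Ω) (x y : Ω) :
    orb G s x y = orb G s y x := by
  classical
  have h1 : (x ≠ y ∧ ({x, y} : Finset Ω) ∈ setOrbit G s)
      ↔ (y ≠ x ∧ ({y, x} : Finset Ω) ∈ setOrbit G s) := by
    rw [Finset.pair_comm x y, ne_comm]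
  simp only [orb]
  by_cases h : x ≠ y ∧ ({x, y} : Finset Ω) ∈ setOrbit G s
  · rw [if_pos h, if_pos (h1.1 h)]
  · rw [if_neg h, if_neg (fun h' => h (h1.2 h'))]

lemma orb_inv (G : Subgroup (Equiv.Perm Ω)) (s : Finset Ω) (g : Equiv.Perm Ω) (hg : g ∈ G)
    (x y : Ω) : orb G s (g x) (g y) = orb G s x y := by
  classical
  have h1 : (g x ≠ g y ∧ ({g x, g y} : Finset Ω) ∈ setOrbit G s)
      ↔ (x ≠ y ∧ ({x, y} : Finset Ω) ∈ setOrbit G s) := by
    constructor
    · rintro ⟨h, k, hk, he⟩
      refine ⟨fun h' => h (by rw [h']), g⁻¹ * k, G.mul_mem (G.inv_mem hg) hk, ?_⟩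
      have e2 : s.map (g⁻¹ * k).toEmbedding
          = (s.map k.toEmbedding).map (g⁻¹ : Equiv.Perm Ω).toEmbedding := by
        rw [Finset.map_map]; rfl
      rw [e2, ← he]
      simp [Finset.map_insert]
    · rintro ⟨h, k, hk, he⟩
      refine ⟨fun h' => h (g.injective h'), g * k, G.mul_mem hg hk, ?_⟩
      have e2 : s.map (g * k).toEmbedding
          = (s.map k.toEmbedding).map g.toEmbedding := by
        rw [Finset.map_map]; rfl
      rw [e2, ← he]
      simp [Finset.map_insert]
  simp only [orb]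
  by_cases h : x ≠ y ∧ ({x, y} : Finset Ω) ∈ setOrbit G s
  · rw [if_pos (h1.2 h), if_pos h]
  · rw [if_neg (fun h' => h (h1.1 h')), if_neg h]

/-- If the orbit matrices have enough eigenvectors over `F`, the `F`-closure is contained in the
strong 2-closure (one inclusion). -/
lemma pair_of_span {G : Subgroup (Equiv.Perm Ω)} {σ : Equiv.Perm Ω}
    (hσ : σ ∈ fieldClosure F G) (s t : Finset Ω) (hs : s.card = 2) (ht : t ∈ setOrbit G s)
    (hspan : (⨆ μ : F, Module.End.eigenspace (opr F (fun x y => (orb G s x y : F))) μ) = ⊤) :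
    t.map σ.toEmbedding ∈ setOrbit G s := by
  classical
  have hcomm := commute_of_span hσ (opr F (fun x y => (orb G s x y : F)))
    (opr_comm _ (fun g hg x y => by rw [orb_inv G s g hg])) hspan
  have aσ : ∀ x y, orb G s (σ x) (σ y) = orb G s x y := by
    intro x y
    have := entry_of_comm (fun x y => (orb G s x y : F)) σ hcomm x y
    exact_mod_cast this
  obtain ⟨g, hg, rfl⟩ := ht
  obtain ⟨x, y, hxy, rfl⟩ := Finset.card_eq_two.1 hs
  have hne : g x ≠ g y := fun h => hxy (g.injective h)
  have h1 : orb G {x, y} (g x) (g y) = 1 := by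
    simp only [orb]
    rw [if_pos]
    exact ⟨hne, g, hg, by simp [Finset.map_insert]⟩
  have h2 : orb G {x, y} (σ (g x)) (σ (g y)) = 1 := by rw [aσ, h1]
  have h3 : (σ (g x) ≠ σ (g y) ∧ ({σ (g x), σ (g y)} : Finset Ω) ∈ setOrbit G {x, y}) := by
    by_contra hcon
    simp only [orb] at h2
    rw [if_neg hcon] at h2
    exact zero_ne_one h2
  have h4 : (({x, y} : Finset Ω).map g.toEmbedding).map σ.toEmbedding
      = {σ (g x), σ (g y)} := by
    simp [Finset.map_insert]
  rw [h4]
  exact h3.2

omit [LinearOrder F] [IsStrictOrderedRing F] [Fintype Ω] [DecidableEq Ω] in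
lemma closure_symm {G : Subgroup (Equiv.Perm Ω)} {σ : Equiv.Perm Ω}
    (hσ : σ ∈ fieldClosure F G) : σ.symm ∈ fieldClosure F G := by
  intro W hW
  have h := hσ W hW
  conv_lhs => rw [← h]
  rw [← Submodule.map_comp]
  have : (ext F σ.symm) ∘ₗ (ext F σ) = LinearMap.id := by
    apply Finsupp.lhom_ext
    intro x c
    simp [ext, Finsupp.mapDomain_single]
  rw [this, Submodule.map_id]

/-- The strong 2-closure is contained in the `F`-closure, `F` an ordered field. -/
theorem strong_subset {G : Subgroup (Equiv.Perm Ω)} (hG : ¬ (Nat.card Ω = 2 ∧ G = ⊥)) :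
    strongTwoClosure G ⊆ fieldClosure F G := by
  intro σ hσ W hW
  apply le_antisymm (strong_le hG hσ W hW)
  intro v hv
  have h1 : ext F σ.symm v ∈ W := strong_le hG (strong_symm hσ) W hW ⟨v, hv, rfl⟩
  refine ⟨ext F σ.symm v, h1, ?_⟩
  have : (ext F σ) ∘ₗ (ext F σ.symm) = LinearMap.id := by
    apply Finsupp.lhom_ext
    intro x c
    simp [ext, Finsupp.mapDomain_single]
  exact congrArg (fun f : (Ω →₀ F) →ₗ[F] (Ω →₀ F) => f v) this

/-- The `F`-closure is contained in the strong 2-closure as soon as the orbit matrices have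
enough eigenvectors over `F`. -/
theorem subset_strong {G : Subgroup (Equiv.Perm Ω)}
    (hspan : ∀ s : Finset Ω, s.card = 2 →
      (⨆ μ : F, Module.End.eigenspace (opr F (fun x y => (orb G s x y : F))) μ) = ⊤) :
    fieldClosure F G ⊆ strongTwoClosure G := by
  intro σ hσ s hs
  apply Set.Subset.antisymm
  · rintro _ ⟨t, ht, rfl⟩
    exact pair_of_span hσ s t hs ht (hspan s hs)
  · intro t ht
    refine ⟨t.map σ.symm.toEmbedding,
      pair_of_span (closure_symm hσ) s t hs ht (hspan s hs), ?_⟩
    simp only [Finset.map_map]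
    have e : σ.symm.toEmbedding.trans σ.toEmbedding = Function.Embedding.refl Ω := by
      ext x; simp
    rw [e, Finset.map_refl]

end

/-- The exceptional case, over every field. -/
lemma exception_field (F : Type v) [Field F] {Ω : Type u} [Fintype Ω] [DecidableEq Ω]
    (h2 : Nat.card Ω = 2) :
    fieldClosure F (⊥ : Subgroup (Equiv.Perm Ω)) ≠ strongTwoClosure ⊥ := by
  rw [Nat.card_eq_fintype_card, ← Finset.card_univ] at h2
  obtain ⟨x, y, hxy, hu⟩ := Finset.card_eq_two.1 h2
  intro h
  have hs : Equiv.swap x y ∈ strongTwoClosure (⊥ : Subgroup (Equiv.Perm Ω)) := by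
    intro s hs
    have hsu : s = Finset.univ := by
      apply Finset.eq_univ_of_card
      rw [hs, ← Finset.card_univ, h2]
    have horb : setOrbit (⊥ : Subgroup (Equiv.Perm Ω)) s = {Finset.univ} := by
      ext t
      constructor
      · rintro ⟨g, -, rfl⟩
        rw [hsu]
        simp
      · rintro rfl
        exact ⟨1, Subgroup.one_mem _, by rw [hsu]; simp⟩
    rw [horb]
    simp
  rw [← h] at hs
  have hinv : IsInvariant F (⊥ : Subgroup (Equiv.Perm Ω))
      (Submodule.span F {Finsupp.single x (1 : F)}) := by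
    intro g hg v hv
    rw [Subgroup.mem_bot] at hg
    subst hg
    have : (ext F (1 : Equiv.Perm Ω) : (Ω →₀ F) →ₗ[F] (Ω →₀ F)) = LinearMap.id := by
      apply Finsupp.lhom_ext
      intro x c
      simp [ext]
    rw [this]
    exact hv
  have h3 := hs _ hinv
  have h4 : Finsupp.single y (1 : F) ∈ Submodule.span F {Finsupp.single x (1 : F)} := by
    rw [← h3]
    refine ⟨Finsupp.single x (1 : F), Submodule.mem_span_singleton_self _, ?_⟩
    simp [ext, Finsupp.mapDomain_single]
  rw [Submodule.mem_span_singleton] at h4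
  obtain ⟨c, hc⟩ := h4
  have h5 := congrArg (fun f : Ω →₀ F => f y) hc
  simp [hxy] at h5

end Pool.Agent.Y561.RC
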