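import Pool.Agent.Y561.RC.Form

set_option autoImplicit false

universe u v

open Polynomial

namespace Pool.Agent.Y561.RC

open Pool.Agent.Results.MP_5a426c_al.RealClosure (setOrbit strongTwoClosure strong_pair
  strong_point strong_symm)

section

variable {F : Type v} [Field F] [LinearOrder F] [IsStrictOrderedRing F]
  {Ω : Type u} [Fintype Ω] [DecidableEq Ω]

/-- A symmetric operator over an ordered field which is annihilated by a product of linear
factors has enough eigenvectors. -/
lemma span_eigen (A : (Ω → F) →ₗ[F] (Ω → F)) (hA : ∀ f g, B F Ω (A f) g = B F Ω f (A g))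
    (m : Multiset F)
    (hm : Polynomial.aeval A ((m.map (fun a => (X - C a : F[X]))).prod) = 0) :
    (⨆ μ : F, Module.End.eigenspace A μ) = ⊤ := by
  set E : Submodule F (Ω → F) := ⨆ μ : F, Module.End.eigenspace A μ with hE
  have hc := isCompl_orth E
  set E' := (B F Ω).orthogonal E with hE'
  -- `E'` is invariant
  have inv : ∀ f ∈ E', A f ∈ E' := by
    intro f hf
    -- `E` is invariant
    have invE : E ≤ E.comap A := by
      apply iSup_le
      intro μ g hg
      have h1 := Module.End.mem_eigenspace_iff.1 hg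
      change A g ∈ E
      rw [h1]
      exact E.smul_mem _ ((le_iSup (fun μ : F => Module.End.eigenspace A μ) μ) hg)
    intro g hg
    change B F Ω g (A f) = 0
    rw [← hA]
    exact hf _ (invE hg)
  -- no eigenvector in `E'`
  have noeig : ∀ (μ : F) f, f ∈ E' → A f = μ • f → f = 0 := by
    intro μ f hf h
    have h1 : f ∈ E := (le_iSup (fun μ : F => Module.End.eigenspace A μ) μ)
      (Module.End.mem_eigenspace_iff.2 h)
    exact Submodule.disjoint_def.1 hc.disjoint _ h1 hf
  have key : ∀ (m : Multiset F) f, f ∈ E' →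
      Polynomial.aeval A ((m.map (fun a => (X - C a : F[X]))).prod) f = 0 → f = 0 := by
    intro m
    induction m using Multiset.induction_on with
    | empty =>
      intro f _ h
      simpa using h
    | cons a m ih =>
      intro f hf h
      rw [Multiset.map_cons, Multiset.prod_cons, mul_comm, map_mul, Module.End.mul_apply] at h
      have h1 : Polynomial.aeval A (X - C a : F[X]) f = A f - a • f := by
        simp
      rw [h1] at h
      have h2 := ih _ (E'.sub_mem (inv f hf) (E'.smul_mem a hf)) h
      exact noeig a f hf (sub_eq_zero.1 h2)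
  have hbot : E' = ⊥ := by
    rw [eq_bot_iff]
    intro f hf
    rw [Submodule.mem_bot]
    apply key m f hf
    rw [hm]
    rfl
  have := hc.sup_eq_top
  rw [hbot, sup_bot_eq] at this
  exact this

omit [LinearOrder F] [IsStrictOrderedRing F] in
/-- A member of the `F`-closure commutes with every operator which commutes with `G` and has
enough eigenvectors. -/
lemma commute_of_span {G : Subgroup (Equiv.Perm Ω)} {σ : Equiv.Perm Ω}
    (hσ : σ ∈ fieldClosure F G) (A : (Ω → F) →ₗ[F] (Ω → F))
    (AG : ∀ g ∈ G, ∀ f, A (P F g f) = P F g (A f))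
    (htop : (⨆ μ : F, Module.End.eigenspace A μ) = ⊤) (f : Ω → F) :
    A (P F σ f) = P F σ (A f) := by
  have eig : ∀ (μ : F) (f : Ω → F), A f = μ • f → A (P F σ f) = μ • P F σ f := by
    intro μ f hf
    let W : Submodule F (Ω →₀ F) := (Module.End.eigenspace A μ).comap (Phi F Ω).toLinearMap
    have memW : ∀ v : Ω →₀ F, v ∈ W ↔ A (Phi F Ω v) = μ • Phi F Ω v := by
      intro v
      exact Module.End.mem_eigenspace_iff
    have hinv : IsInvariant F G W := by
      intro g hg v hv
      rw [memW] at hv ⊢
      rw [Phi_ext, AG g hg, hv, map_smul]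
    have hW := hσ W hinv
    have h1 : ext F σ ((Phi F Ω).symm f) ∈ W := by
      rw [← hW]
      refine ⟨(Phi F Ω).symm f, ?_, rfl⟩
      change (Phi F Ω).symm f ∈ W
      rw [memW, LinearEquiv.apply_symm_apply]
      exact hf
    rw [memW, Phi_ext, LinearEquiv.apply_symm_apply] at h1
    exact h1
  have hle : (⨆ μ : F, Module.End.eigenspace A μ)
      ≤ LinearMap.ker (A ∘ₗ P F σ - P F σ ∘ₗ A) := by
    apply iSup_le
    intro μ f hf
    rw [Module.End.mem_eigenspace_iff] at hf
    rw [LinearMap.mem_ker, LinearMap.sub_apply, LinearMap.comp_apply, LinearMap.comp_apply,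
      eig μ f hf, hf, map_smul, sub_self]
  have : f ∈ LinearMap.ker (A ∘ₗ P F σ - P F σ ∘ₗ A) := by
    apply hle
    rw [htop]
    exact Submodule.mem_top
  rw [LinearMap.mem_ker, LinearMap.sub_apply, LinearMap.comp_apply, LinearMap.comp_apply,
    sub_eq_zero] at this
  exact this

variable (F) in
/-- The operator of a matrix. -/
noncomputable def opr (a : Ω → Ω → F) : (Ω → F) →ₗ[F] (Ω → F) := Matrix.toLin' (Matrix.of a)

omit [LinearOrder F] [IsStrictOrderedRing F] in
lemma opr_apply (a : Ω → Ω → F) (f : Ω → F) (x : Ω) : opr F a f x = ∑ y, a x y * f y := by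
  rw [opr, Matrix.toLin'_apply]
  rfl

omit [LinearOrder F] [IsStrictOrderedRing F] in
lemma opr_symm (a : Ω → Ω → F) (ha : ∀ x y, a x y = a y x) (f g : Ω → F) :
    B F Ω (opr F a f) g = B F Ω f (opr F a g) := by
  rw [B_apply, B_apply]
  simp only [opr_apply, Finset.sum_mul, Finset.mul_sum]
  rw [Finset.sum_comm]
  refine Finset.sum_congr rfl (fun x _ => Finset.sum_congr rfl (fun y _ => ?_))
  rw [ha y x]; ring

omit [LinearOrder F] [IsStrictOrderedRing F] in
lemma opr_comm {G : Subgroup (Equiv.Perm Ω)} (a : Ω → Ω → F)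
    (aG : ∀ g ∈ G, ∀ x y, a (g x) (g y) = a x y) :
    ∀ g ∈ G, ∀ f, opr F a (P F g f) = P F g (opr F a f) := by
  intro g hg f
  funext x
  rw [opr_apply, P_apply, opr_apply]
  rw [← Equiv.sum_comp g]
  refine Finset.sum_congr rfl (fun y _ => ?_)
  rw [P_apply, Equiv.symm_apply_apply, ← aG g hg (g.symm x) y, Equiv.apply_symm_apply]

omit [LinearOrder F] [IsStrictOrderedRing F] in
lemma entry_of_comm (a : Ω → Ω → F) (σ : Equiv.Perm Ω)
    (h : ∀ f, opr F a (P F σ f) = P F σ (opr F a f)) (x y : Ω) : a (σ x) (σ y) = a x y := by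
  have h := congrArg (fun f : Ω → F => f (σ x)) (h (Pi.single y (1 : F)))
  simp only [P_single, opr_apply, P_apply, Equiv.symm_apply_apply, Pi.single_apply] at h
  simpa using h

end

end Pool.Agent.Y561.RC
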